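import Pool.Agent.V11231.CSR.Two

/-!
# Cycle stable roommates with bounded preference lists: the complexity of `CS(L)` and `CS_3(L)`

The reduction for lists of length three is from one-in-three satisfiability without negations. For
every position `s` in a clause there are four agents `a s`, `y s`, `q s`, `q' s`. The agents `a` of
a clause form a ring of three agents, the agents `y s`, `q s`, `q' s` of a variable form a ring, and
`a (s + 1)` and `y s` are joined by a chord. Each agent ranks the next agent of its ring first, then
the other end of the chord, then the previous agent of its ring. A counting argument shows that the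
agents `a s`, over the occurrences `s` of a variable, are either all matched with the next agent of
their ring or none of them is.
-/

namespace Pool.Agent.Results.MP_68674a_lc.BoundedListsDichotomy

open Pool.Agent.NPC Pool.Agent.V11231.CSR

/-- (1) If `L ≥ 3`, then `CS(L)` is NP-complete, `CS_3(L)` is NP-complete, and `CS_k(L)` (no
blocking cycle of length at most `k`) is NP-hard for every `k ≥ 3`. (2) If `L ≤ 2`, then `CS(L)`,
`CS_3(L)` and `CS_k(L)` for every `k ≥ 2` are solvable in polynomial time. -/
theorem result :
    (∀ L : ℕ, 3 ≤ L → (NPHard (lang (CS L)) ∧ InNP (lang (CS L))) ∧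
      (NPHard (lang (CSk 3 L)) ∧ InNP (lang (CSk 3 L))) ∧
      ∀ k : ℕ, 3 ≤ k → NPHard (lang (CSk k L))) ∧
    (∀ L : ℕ, L ≤ 2 → InP (lang (CS L)) ∧ InP (lang (CSk 3 L)) ∧
      ∀ k : ℕ, 2 ≤ k → InP (lang (CSk k L))) :=
  ⟨fun L hL => ⟨⟨(hard_cs hL).toNPHardP, mem_np L⟩,
    ⟨(hard_csk hL le_rfl).toNPHardP, mem_np3 L⟩, fun _ hk => (hard_csk hL hk).toNPHardP⟩,
    fun L hL => ⟨inP_cs hL, inP_csk (by omega) hL, fun _ hk => inP_csk hk hL⟩⟩

end Pool.Agent.Results.MP_68674a_lc.BoundedListsDichotomy
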